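import Pool.Agent.H20.AffineEDProof

set_option autoImplicit false

namespace Pool.Agent.Results.MP_450528_ag.SeveralReal

open MvPolynomial Pool.Agent.H20.AffineED

/-- Disproof of the uniqueness of the real critical point, format `2 × 2 × 2`. -/
theorem result :
    (∀ P : MvPolynomial (Idx m222) ℂ,
      (∃ T : Tensor m222, ∑ I, T I = 1 ∧ eval T P ≠ 0) →
      ∃ T : Tensor m222, IsNonnegProbability T ∧ eval T P ≠ 0 ∧
        2 ≤ {x : Tensor m222 | IsCriticalPoint T x ∧ IsRealTensor x}.encard) ∧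
    (∀ N : ℕ, IsGenericNumber m222 N →
      ∃ T : Tensor m222, IsNonnegProbability T ∧
        {x : Tensor m222 | IsCriticalPoint T x}.encard = N ∧
        2 ≤ {x : Tensor m222 | IsCriticalPoint T x ∧ IsRealTensor x}.encard) := by
  refine ⟨dense_part, ?_⟩
  rintro N ⟨P, hP, hN⟩
  obtain ⟨T, hT, hTP, h2⟩ := dense_part P hP
  exact ⟨T, hT, hN T hT.2.2 hTP, h2⟩

end Pool.Agent.Results.MP_450528_ag.SeveralReal
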